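import Pool.Agent.H81.IX.REL

/-!
# Row NW2: the unitary element normalises `Q`
-/

set_option autoImplicit false

open scoped InnerProductSpace Topology
open Filter Finset Pool.Agent.H80.G2 Pool.Agent.H39.IX

namespace Pool.Agent.H81.IX

variable {H : Type} [NormedAddCommGroup H] [InnerProductSpace ℂ H] [CompleteSpace H]

theorem uh_mul {u v : H →L[ℂ] H} (hu : UH u) (hv : UH v) : UH (u * v) := by
  refine ⟨?_, ?_⟩
  · rw [star_mul, mul_assoc, ← mul_assoc (star u), hu.1, one_mul, hv.1]
  · rw [star_mul, mul_assoc, ← mul_assoc v, hv.2, one_mul, hu.2]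

/-- conjugation moves commutants -/
theorem conj_comm {w y x : H →L[ℂ] H} (hw : UH w)
    (h : x * (star w * y * w) = star w * y * w * x) :
    (w * x * star w) * y = y * (w * x * star w) := by
  calc (w * x * star w) * y = w * (x * (star w * y * w)) * star w := by
        have : w * (x * (star w * y * w)) * star w = (w * x * star w) * y * (w * star w) := by
          simp only [mul_assoc]
        rw [this, hw.2, mul_one]
    _ = w * (star w * y * w * x) * star w := by rw [h]
    _ = (w * star w) * y * (w * x * star w) := by simp only [mul_assoc]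
    _ = y * (w * x * star w) := by rw [hw.2, one_mul]

theorem conj_comm' {w y x : H →L[ℂ] H} (hw : UH w)
    (h : (w * x * star w) * y = y * (w * x * star w)) :
    x * (star w * y * w) = star w * y * w * x := by
  calc x * (star w * y * w) = (star w * w) * x * (star w * y * w) := by rw [hw.1, one_mul]
    _ = star w * ((w * x * star w) * y) * w := by simp only [mul_assoc]
    _ = star w * (y * (w * x * star w)) * w := by rw [h]
    _ = star w * y * w * x * (star w * w) := by simp only [mul_assoc]
    _ = star w * y * w * x := by rw [hw.1, mul_one]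

theorem pf_NW2 (hQPN : T_QPN) (hINT : T_INT) (hREL : T_REL) : T_NW2 := by
  intro H _ _ _ M N P A Q w s w₂ G ξ ζ hS hQ hC hW
  have hw : UH w := ⟨hS.idx.uni.2.1, hS.idx.uni.2.2⟩
  have hw2 : UH w₂ := ⟨hW.uw.2.1, hW.uw.2.2⟩
  have hQN := (hQPN H M N P A Q w G ξ ζ hS hQ).2.1
  have hGA : ∀ g, InG G g → g ∈ A := fun g hg => (hS.gen g).2 fun y hy => hy g hg
  obtain ⟨U, hU⟩ : ∃ U, U = s * w := ⟨_, rfl⟩
  have hUU : UH U := by rw [hU]; exact uh_mul hW.us hw
  have hbe : ∀ x, s * (w * x * star w) * star s = U * x * star U := by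
    intro x
    rw [hU, star_mul]
    simp only [mul_assoc]
  have hact : ∀ g, InG G g → w₂ * g * star w₂ = U * g * star U := fun g hg => by
    rw [← hbe]; exact hW.act g hg
  -- the element `k`
  have hk : Com G (star U * w₂) := by
    intro g hg
    have h1 := hact g hg
    calc g * (star U * w₂) = (star U * U) * g * star U * w₂ := by
          rw [hUU.1, one_mul]; simp only [mul_assoc]
      _ = star U * (U * g * star U) * w₂ := by simp only [mul_assoc]
      _ = star U * (w₂ * g * star w₂) * w₂ := by rw [h1]
      _ = star U * w₂ * g * (star w₂ * w₂) := by simp only [mul_assoc]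
      _ = star U * w₂ * g := by rw [hw2.1, mul_one]
  have hA : ∀ a ∈ A, w₂ * a * star w₂ = U * a * star U := by
    intro a ha
    have h1 := (hS.gen a).1 ha _ hk
    calc w₂ * a * star w₂ = (U * star U) * w₂ * a * star w₂ := by rw [hUU.2, one_mul]
      _ = U * ((star U * w₂) * a) * star w₂ := by simp only [mul_assoc]
      _ = U * (a * (star U * w₂)) * star w₂ := by rw [h1]
      _ = U * a * star U * (w₂ * star w₂) := by simp only [mul_assoc]
      _ = U * a * star U := by rw [hw2.2, mul_one]
  have hAQ : ∀ a ∈ A, w₂ * a * star w₂ ∈ Q := by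
    intro a ha
    refine mem_of_comm fun y hy => conj_comm hw2 ((hS.gen a).1 ha _ fun g hg => ?_)
    refine conj_comm' hw2 ?_
    have h1 := hW.mem g hg
    rw [← hW.act g hg] at h1
    exact hy _ h1
  -- the elements of `VN`
  have hVN : ∀ v, VN N P A G v → w₂ * v * star w₂ ∈ Q := by
    rintro v ⟨hvN, u, hu, huv⟩
    have hu1 : UH u := ⟨hu.1.2.1, hu.1.2.2⟩
    have hv1 : UH v := ⟨hvN.2.1, hvN.2.2⟩
    obtain ⟨X, hX⟩ : ∃ X, X = w * u * star w := ⟨_, rfl⟩
    have hXP : X ∈ P := by rw [hX]; exact hS.idx.nor u hu.1.1
    have hXU : UH X := by rw [hX]; exact uh_mul (uh_mul hw hu1) (uh_star hw)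
    obtain ⟨q, hq, hqn⟩ := hC.PQ X hXP
    have hXn := uh_norm hXU
    have ht : U * u * star U = s * X * star s := by rw [← hbe, hX]
    have htn : ‖q - U * u * star U‖ ≤ 13 / 1000 := by
      have h1 := conj_small (s := star s) (y := X) (uh_star hW.us) (by
        have h2 : star s - 1 = star (s - 1) := by rw [star_sub, star_one]
        rw [h2, norm_star]
        exact hW.s1) hXn
      rw [star_star] at h1
      have h3 : q - U * u * star U = -(X - q) - (s * X * star s - X) := by rw [ht]; abel
      rw [h3]
      refine (norm_sub_le _ _).trans ?_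
      rw [norm_neg]
      linarith
    obtain ⟨v3, hv3, -, hv3g⟩ := hINT H Q G hS.grp (fun g => U * g * star U)
      (fun g => w₂ * (u * g * star u) * star w₂) U (U * u * star U) q (13 / 1000) hUU
      (uh_mul (uh_mul hUU hu1) (uh_star hUU)) (fun g _ => rfl) (fun g hg => by
        have hag : u * g * star u ∈ A := hu.2.1 g (hGA g hg)
        refine ⟨?_, hAQ _ hag, ?_⟩
        · have := hW.mem g hg
          rwa [hbe] at this
        · show U * u * star U * (U * g * star U) =
            w₂ * (u * g * star u) * star w₂ * (U * u * star U)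
          rw [hA _ hag]
          calc U * u * star U * (U * g * star U) = U * u * (star U * U) * g * star U := by
                simp only [mul_assoc]
            _ = U * u * g * star U := by rw [hUU.1, mul_one]
            _ = U * u * g * (star u * u) * star U := by rw [hu1.1, mul_one]
            _ = U * (u * g * star u) * (star U * U) * u * star U := by
                rw [hUU.1, mul_one]; simp only [mul_assoc]
            _ = U * (u * g * star u) * star U * (U * u * star U) := by simp only [mul_assoc])
      hq htn (by norm_num)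
    have hv3' : UH v3 := ⟨hv3.2.1, hv3.2.2⟩
    obtain ⟨v2, hv2⟩ : ∃ v2, v2 = w₂ * v * star w₂ := ⟨_, rfl⟩
    have hv2N : v2 ∈ N := by
      rw [hv2]
      exact mul_mem (mul_mem hW.uw.1 hvN.1) (star_mem hW.uw.1)
    have hv2g : ∀ g, InG G g → v2 * (U * g * star U) =
        w₂ * (u * g * star u) * star w₂ * v2 := by
      intro g hg
      rw [hv2, ← hact g hg, ← huv g hg]
      calc w₂ * v * star w₂ * (w₂ * g * star w₂) = w₂ * v * (star w₂ * w₂) * g * star w₂ := by
            simp only [mul_assoc]
        _ = w₂ * v * g * star w₂ := by rw [hw2.1, mul_one]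
        _ = w₂ * v * g * (star v * v) * star w₂ := by rw [hv1.1, mul_one]
        _ = w₂ * (v * g * star v) * (star w₂ * w₂) * v * star w₂ := by
            rw [hw2.1, mul_one]; simp only [mul_assoc]
        _ = w₂ * (v * g * star v) * star w₂ * (w₂ * v * star w₂) := by simp only [mul_assoc]
    have hd : star v3 * v2 ∈ Q := by
      refine hREL H M N P A Q w s w₂ G ξ ζ hS hQ hC hW _
        (mul_mem (star_mem (hQN _ hv3.1)) hv2N) fun g hg => ?_
      rw [hbe]
      obtain ⟨b, hb⟩ : ∃ b, b = w₂ * (u * g * star u) * star w₂ := ⟨_, rfl⟩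
      obtain ⟨a, ha⟩ : ∃ a, a = U * g * star U := ⟨_, rfl⟩
      have h1 : v3 * a = b * v3 := by rw [ha, hb]; exact hv3g g hg
      have h2 : v2 * a = b * v2 := by rw [ha, hb]; exact hv2g g hg
      rw [← ha]
      calc a * (star v3 * v2) = (star v3 * v3) * a * star v3 * v2 := by
            rw [hv3'.1, one_mul]; simp only [mul_assoc]
        _ = star v3 * (v3 * a) * star v3 * v2 := by simp only [mul_assoc]
        _ = star v3 * (b * v3) * star v3 * v2 := by rw [h1]
        _ = star v3 * b * (v3 * star v3) * v2 := by simp only [mul_assoc]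
        _ = star v3 * (b * v2) := by rw [hv3'.2, mul_one]; simp only [mul_assoc]
        _ = star v3 * (v2 * a) := by rw [h2]
        _ = star v3 * v2 * a := by simp only [mul_assoc]
    have h3 : v2 = v3 * (star v3 * v2) := by rw [← mul_assoc, hv3'.2, one_mul]
    rw [← hv2, h3]
    exact mul_mem hv3.1 hd
  -- the conclusion
  intro x hx
  refine mem_of_comm fun y hy => conj_comm hw2 ((hQ x).1 hx _ fun v hv => ?_)
  exact conj_comm' hw2 (hy _ (hVN v hv))

end Pool.Agent.H81.IX
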