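import Pool.Agent.H39.IX.Targets2
import Pool.Agent.H80.G2.Basic

/-!
# Row REL: the commutant in `N` of the conjugated groups is in `Q`
-/

set_option autoImplicit false

open scoped InnerProductSpace Topology
open Filter Finset Pool.Agent.H80.G2 Pool.Agent.H39.IX

namespace Pool.Agent.H81.IX

variable {H : Type} [NormedAddCommGroup H] [InnerProductSpace ℂ H] [CompleteSpace H]

theorem uh_norm {u : H →L[ℂ] H} (hu : UH u) : ‖u‖ ≤ 1 := by
  have h1 := CStarRing.norm_star_mul_self (x := u)
  rw [hu.1] at h1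
  have h2 : ‖(1 : H →L[ℂ] H)‖ ≤ 1 := ContinuousLinearMap.norm_id_le
  nlinarith [norm_nonneg u]

theorem uh_star {u : H →L[ℂ] H} (hu : UH u) : UH (star u) :=
  ⟨by rw [star_star]; exact hu.2, by rw [star_star]; exact hu.1⟩

theorem isF_sub {G : ℕ → Finset (H →L[ℂ] H)} {F : (H →L[ℂ] H) → (H →L[ℂ] H)} (hF : IsF G F)
    (x z : H →L[ℂ] H) : F (x - z) = F x - F z := by
  have h1 : x - z = x + (-1 : ℂ) • z := by rw [neg_one_smul, sub_eq_add_neg]
  rw [h1, hF.add, hF.smul, neg_one_smul, sub_eq_add_neg]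

/-- conjugated sequences of groups -/
theorem grp_conj {G : ℕ → Finset (H →L[ℂ] H)} (hG : GrpSeq G) {w : H →L[ℂ] H} (hw : UH w) :
    ∃ G' : ℕ → Finset (H →L[ℂ] H), GrpSeq G' ∧ (∀ g, InG G g → InG G' (w * g * star w)) ∧
      ∀ g', InG G' g' → ∃ g, InG G g ∧ g' = w * g * star w := by
  classical
  have key : ∀ g h : H →L[ℂ] H, (w * g * star w) * (w * h * star w) = w * (g * h) * star w := by
    intro g h
    calc (w * g * star w) * (w * h * star w) = w * g * (star w * w) * h * star w := by
          simp only [mul_assoc]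
      _ = w * (g * h) * star w := by rw [hw.1, mul_one]; simp only [mul_assoc]
  have hst : ∀ g : H →L[ℂ] H, star (w * g * star w) = w * star g * star w := by
    intro g
    rw [star_mul, star_mul, star_star, mul_assoc]
  refine ⟨fun n => (G n).image fun g => w * g * star w, ⟨?_, ?_, ?_, ?_, ?_⟩, ?_, ?_⟩
  · intro n
    rw [Finset.mem_image]
    exact ⟨1, hG.one n, by rw [mul_one, hw.2]⟩
  · intro n g hg h hh
    rw [Finset.mem_image] at hg hh ⊢
    obtain ⟨a, ha, rfl⟩ := hg
    obtain ⟨b, hb, rfl⟩ := hh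
    exact ⟨a * b, hG.mul n a ha b hb, (key a b).symm⟩
  · intro n g hg
    rw [Finset.mem_image] at hg ⊢
    obtain ⟨a, ha, rfl⟩ := hg
    exact ⟨star a, hG.star n a ha, (hst a).symm⟩
  · intro n g hg
    rw [Finset.mem_image] at hg
    obtain ⟨a, ha, rfl⟩ := hg
    rw [hst, key, hG.uni n a ha, mul_one, hw.2]
  · intro n
    exact Finset.image_subset_image (hG.mono n)
  · rintro g ⟨n, hn⟩
    exact ⟨n, Finset.mem_image.2 ⟨g, hn, rfl⟩⟩
  · rintro g' ⟨n, hn⟩
    obtain ⟨g, hg, rfl⟩ := Finset.mem_image.1 hn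
    exact ⟨g, ⟨n, hg⟩, rfl⟩

/-- `y - s* y s` is small -/
theorem conj_small {s y : H →L[ℂ] H} (hs : UH s) (h1 : ‖s - 1‖ ≤ 6 / 1000) (hy : ‖y‖ ≤ 1) :
    ‖star s * y * s - y‖ ≤ 12 / 1000 := by
  have h2 : star s * y * s - y = star s * (y * (s - 1) - (s - 1) * y) := by
    have h3 : star s * (s * y) = y := by rw [← mul_assoc, hs.1, one_mul]
    calc star s * y * s - y = star s * y * s - star s * (s * y) := by rw [h3]
      _ = star s * (y * (s - 1) - (s - 1) * y) := by
        rw [mul_sub, mul_sub, mul_sub, sub_mul, mul_sub]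
        simp only [mul_one, one_mul, mul_assoc]
        abel
  rw [h2]
  have h4 := norm_mul_le (star s) (y * (s - 1) - (s - 1) * y)
  have h5 := uh_norm (uh_star hs)
  have h6 := norm_sub_le (y * (s - 1)) ((s - 1) * y)
  have h7 := norm_mul_le y (s - 1)
  have h8 := norm_mul_le (s - 1) y
  have h9 : ‖y‖ * ‖s - 1‖ ≤ 6 / 1000 := by
    have := mul_le_mul hy h1 (norm_nonneg _) zero_le_one
    linarith
  have h10 : ‖y * (s - 1) - (s - 1) * y‖ ≤ 12 / 1000 := by
    have h11 : ‖s - 1‖ * ‖y‖ = ‖y‖ * ‖s - 1‖ := mul_comm _ _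
    linarith
  have h12 : ‖star s‖ * ‖y * (s - 1) - (s - 1) * y‖ ≤ 1 * (12 / 1000) :=
    mul_le_mul h5 h10 (norm_nonneg _) zero_le_one
  linarith

theorem near1 (hF : T_F) {M N P A Q : VonNeumannAlgebra H} {w s w₂ : H →L[ℂ] H}
    {G : ℕ → Finset (H →L[ℂ] H)} {ξ ζ : ℕ → H} (hS : Sit M N P A w G ξ ζ) (hC : Cls P Q)
    (hW : W2 N Q w G s w₂) (y : H →L[ℂ] H) (hyN : y ∈ N) (hy1 : ‖y‖ ≤ 1)
    (hy : ∀ g, InG G g → (s * (w * g * star w) * star s) * y =
      y * (s * (w * g * star w) * star s)) : ∃ q ∈ Q, ‖y - q‖ ≤ 25 / 1000 := by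
  have hw : UH w := ⟨hS.idx.uni.2.1, hS.idx.uni.2.2⟩
  obtain ⟨x, hxM, hx1, hxy⟩ := hS.nNM y hyN hy1
  obtain ⟨G', hG', hG1, hG2⟩ := grp_conj hS.grp hw
  obtain ⟨F', hF'⟩ := hF H G' hG'
  have hGP : ∀ g', InG G' g' → g' ∈ P := by
    intro g' hg'
    obtain ⟨g, hg, rfl⟩ := hG2 g' hg'
    exact hS.idx.nor g (hS.GP g hg)
  have hx2M : F' x ∈ M := hF'.mem M (fun g' hg' => hS.idx.sub _ (hGP g' hg')) x hxM
  have hx2n : ‖F' x‖ ≤ 1 := (hF'.nrm x).trans hx1
  have hx2P : F' x ∈ P := by
    have h1 : star w * F' x * w ∈ P := by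
      refine hS.rc _ (mul_mem (mul_mem (star_mem hS.idx.uni.1) hx2M) hS.idx.uni.1) ?_
      intro g hg
      have h2 := hF'.com x _ (hG1 g hg)
      calc g * (star w * F' x * w) = (star w * w) * g * star w * F' x * w := by
            rw [hw.1, one_mul]; simp only [mul_assoc]
        _ = star w * ((w * g * star w) * F' x) * w := by simp only [mul_assoc]
        _ = star w * (F' x * (w * g * star w)) * w := by rw [h2]
        _ = star w * F' x * w * g * (star w * w) := by simp only [mul_assoc]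
        _ = star w * F' x * w * g := by rw [hw.1, mul_one]
    have h3 := hS.idx.nor _ h1
    have h4 : w * (star w * F' x * w) * star w = F' x := by
      calc w * (star w * F' x * w) * star w = (w * star w) * F' x * (w * star w) := by
            simp only [mul_assoc]
        _ = F' x := by rw [hw.2, one_mul, mul_one]
    rwa [h4] at h3
  have hfix : F' (star s * y * s) = star s * y * s := by
    refine hF'.fix _ ?_
    intro g' hg'
    obtain ⟨g, hg, rfl⟩ := hG2 g' hg'
    obtain ⟨b, hb⟩ : ∃ b, b = w * g * star w := ⟨_, rfl⟩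
    have h5 := hy g hg
    rw [← hb] at h5 ⊢
    calc b * (star s * y * s) = (star s * s) * b * star s * y * s := by
          rw [hW.us.1, one_mul]; simp only [mul_assoc]
      _ = star s * ((s * b * star s) * y) * s := by simp only [mul_assoc]
      _ = star s * (y * (s * b * star s)) * s := by rw [h5]
      _ = star s * y * s * b * (star s * s) := by simp only [mul_assoc]
      _ = star s * y * s * b := by rw [hW.us.1, mul_one]
  have h6 := conj_small hW.us hW.s1 hy1
  have h7 : ‖F' x - star s * y * s‖ ≤ 1 / 1000000 + 12 / 1000 := by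
    rw [← hfix, ← isF_sub hF']
    refine (hF'.nrm _).trans ?_
    have h8 : x - star s * y * s = -(y - x) - (star s * y * s - y) := by abel
    rw [h8]
    refine (norm_sub_le _ _).trans ?_
    rw [norm_neg]
    linarith
  obtain ⟨q, hq, hxq⟩ := hC.PQ _ hx2P
  refine ⟨q, hq, ?_⟩
  have h9 : y - q = -(star s * y * s - y) - (F' x - star s * y * s) + (F' x - q) := by abel
  rw [h9]
  have h10 := norm_add_le (-(star s * y * s - y) - (F' x - star s * y * s)) (F' x - q)
  have h11 := norm_sub_le (-(star s * y * s - y)) (F' x - star s * y * s)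
  rw [norm_neg] at h11
  have h12 : 20 / 1000000 * ‖F' x‖ ≤ 20 / 1000000 := by linarith
  linarith

theorem near (hF : T_F) {M N P A Q : VonNeumannAlgebra H} {w s w₂ : H →L[ℂ] H}
    {G : ℕ → Finset (H →L[ℂ] H)} {ξ ζ : ℕ → H} (hS : Sit M N P A w G ξ ζ) (hC : Cls P Q)
    (hW : W2 N Q w G s w₂) (y : H →L[ℂ] H) (hyN : y ∈ N)
    (hy : ∀ g, InG G g → (s * (w * g * star w) * star s) * y =
      y * (s * (w * g * star w) * star s)) : ∃ q ∈ Q, ‖y - q‖ ≤ 25 / 1000 * ‖y‖ := by
  rcases (norm_nonneg y).eq_or_lt with h0 | h0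
  · refine ⟨0, zero_mem Q, ?_⟩
    rw [sub_zero, ← h0, mul_zero]
  · obtain ⟨c, hc⟩ : ∃ c : ℂ, c = ((‖y‖⁻¹ : ℝ) : ℂ) := ⟨_, rfl⟩
    have hcn : ‖c‖ = ‖y‖⁻¹ := by
      rw [hc, Complex.norm_real, norm_inv, norm_norm]
    have hc0 : c ≠ 0 := by
      rw [← norm_ne_zero_iff, hcn]
      positivity
    obtain ⟨q, hq, hn⟩ := near1 hF hS hC hW (c • y) (smul_mem' N c hyN)
      (by rw [norm_smul, hcn, inv_mul_cancel₀ h0.ne']) (fun g hg => by
        rw [mul_smul_comm, hy g hg, smul_mul_assoc])
    refine ⟨c⁻¹ • q, smul_mem' Q _ hq, ?_⟩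
    have h1 : y - c⁻¹ • q = c⁻¹ • (c • y - q) := by
      rw [smul_sub, smul_smul, inv_mul_cancel₀ hc0, one_smul]
    rw [h1, norm_smul, norm_inv, hcn, inv_inv, mul_comm]
    exact mul_le_mul_of_nonneg_right hn h0.le

theorem pf_REL (hF : T_F) (hCE : T_CE) (hQPN : T_QPN) : T_REL := by
  intro H _ _ _ M N P A Q w s w₂ G ξ ζ hS hQ hC hW y hyN hy
  have hw : UH w := ⟨hS.idx.uni.2.1, hS.idx.uni.2.2⟩
  have hQN := (hQPN H M N P A Q w G ξ ζ hS hQ).2.1
  have hsum := hS.trN.one.summable
  obtain ⟨e, heQ, -, he⟩ := hCE H N Q ζ hS.trN hQN y hyN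
  have huniq : ∀ d ∈ Q, (∀ p ∈ Q, tr ζ (p * d) = 0) → d = 0 := fun d hd h =>
    hS.trN.faith d (hQN d hd) (h _ (star_mem hd))
  -- `e` commutes with the conjugated groups
  have hcom : ∀ g, InG G g → (s * (w * g * star w) * star s) * e =
      e * (s * (w * g * star w) * star s) := by
    intro g hg
    obtain ⟨b, hb⟩ : ∃ b, b = s * (w * g * star w) * star s := ⟨_, rfl⟩
    have hbQ : b ∈ Q := by rw [hb]; exact hW.mem g hg
    have hyb := hy g hg
    rw [← hb] at hyb ⊢
    obtain ⟨n, hn⟩ := hg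
    have hg1 : star g * g = 1 := hS.grp.uni n g hn
    have hg2 : g * star g = 1 := by
      have := hS.grp.uni n (star g) (hS.grp.star n g hn)
      rwa [star_star] at this
    have hsb : star b = s * (w * star g * star w) * star s := by
      rw [hb]
      simp only [star_mul, star_star, mul_assoc]
    have hb1 : star b * b = 1 := by
      rw [hsb, hb]
      calc s * (w * star g * star w) * star s * (s * (w * g * star w) * star s) =
          s * (w * star g * star w) * (star s * s) * (w * g * star w) * star s := by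
            simp only [mul_assoc]
        _ = s * w * star g * (star w * w) * g * star w * star s := by
            rw [hW.us.1, mul_one]; simp only [mul_assoc]
        _ = s * w * (star g * g) * star w * star s := by
            rw [hw.1, mul_one]; simp only [mul_assoc]
        _ = s * (w * star w) * star s := by rw [hg1, mul_one]; simp only [mul_assoc]
        _ = 1 := by rw [hw.2, mul_one, hW.us.2]
    have hb2 : b * star b = 1 := by
      rw [hsb, hb]
      calc s * (w * g * star w) * star s * (s * (w * star g * star w) * star s) =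
          s * (w * g * star w) * (star s * s) * (w * star g * star w) * star s := by
            simp only [mul_assoc]
        _ = s * w * g * (star w * w) * star g * star w * star s := by
            rw [hW.us.1, mul_one]; simp only [mul_assoc]
        _ = s * w * (g * star g) * star w * star s := by
            rw [hw.1, mul_one]; simp only [mul_assoc]
        _ = s * (w * star w) * star s := by rw [hg2, mul_one]; simp only [mul_assoc]
        _ = 1 := by rw [hw.2, mul_one, hW.us.2]
    have hbN := hQN b hbQ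
    have h1 : b * e * star b - e = 0 := by
      refine huniq _ (sub_mem (mul_mem (mul_mem hbQ heQ) (star_mem hbQ)) heQ) fun p hp => ?_
      have h2 : p * (b * e * star b - e) = p * (y - e) - p * b * (y - e) * star b := by
        have h3 : p * b * y * star b = p * y := by
          rw [mul_assoc p b y, hyb, ← mul_assoc, mul_assoc, hb2, mul_one]
        rw [mul_sub, mul_sub, mul_sub, sub_mul, h3]
        simp only [mul_assoc]
        abel
      have h4 : tr ζ (p * b * (y - e) * star b) = 0 := by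
        rw [hS.trN.comm _ (mul_mem (mul_mem (hQN p hp) hbN) (sub_mem hyN (hQN e heQ))) _
          (star_mem hbN)]
        have h5 := he (star b * p * b) (mul_mem (mul_mem (star_mem hbQ) hp) hbQ)
        rw [← h5]
        simp only [mul_assoc]
      rw [h2, tr_sub hsum, he p hp, h4, sub_zero]
    have h6 : b * e * star b = e := sub_eq_zero.1 h1
    calc b * e = b * e * (star b * b) := by rw [hb1, mul_one]
      _ = b * e * star b * b := by simp only [mul_assoc]
      _ = e * b := by rw [h6]
  -- the difference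
  obtain ⟨y1, hy1⟩ : ∃ y1, y1 = y - e := ⟨_, rfl⟩
  have hy1N : y1 ∈ N := by rw [hy1]; exact sub_mem hyN (hQN e heQ)
  obtain ⟨q, hq, hqn⟩ := near hF hS hC hW y1 hy1N (fun g hg => by
    rw [hy1, mul_sub, sub_mul, hy g hg, hcom g hg])
  obtain ⟨e', he'Q, he'n, he'⟩ := hCE H N Q ζ hS.trN hQN (y1 - q) (sub_mem hy1N (hQN q hq))
  have h7 : q + e' = 0 := by
    refine huniq _ (add_mem hq he'Q) fun p hp => ?_
    have h8 : p * (q + e') = p * y1 - p * (y1 - q - e') := by
      rw [← mul_sub]
      congr 1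
      abel
    have h9 := he p hp
    rw [← hy1] at h9
    rw [h8, tr_sub hsum, h9, he' p hp, sub_zero]
  have h10 : ‖q‖ = ‖e'‖ := by
    rw [eq_neg_of_add_eq_zero_left h7, norm_neg]
  have h11 : ‖y1‖ ≤ ‖y1 - q‖ + ‖q‖ := by
    have := norm_add_le (y1 - q) q
    rwa [sub_add_cancel] at this
  have h12 : ‖y1‖ = 0 := by
    have := norm_nonneg y1
    linarith
  rw [norm_eq_zero, hy1, sub_eq_zero] at h12
  rw [h12]
  exact heQ

end Pool.Agent.H81.IX
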